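import Pool.Agent.Helper11.LE.Goals3
import Pool.Agent.Helper88.RD.SLG

/-!
# Project LE, packet LE-ST2: the descent step when `K` does not contain the `p`-th roots of unity
-/

namespace Pool.Agent.Helper2.LE

open NumberField Polynomial Module IsDedekindDomain TensorProduct Pool.Agent.Helper51.SigLeo
open Pool.Agent.Helper51.RP Pool.Agent.Helper42.RD Pool.Agent.Helper38.RSP
open Pool.Agent.Helper11.LE

/-- An element with a power prime to `p` which is a `p`-th power is a `p`-th power. -/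
theorem pth_of_zpow {p : ℕ} (hp : p.Prime) {G : Type} [CommGroup G] {x : G} {n : ℤ}
    (hn : ¬ (p : ℤ) ∣ n) (h : ∃ y, x ^ n = y ^ p) : ∃ y, x = y ^ p := by
  obtain ⟨y, hy⟩ := h
  have hc : IsCoprime n (p : ℤ) := by
    rw [isCoprime_comm, Prime.coprime_iff_not_dvd (Nat.prime_iff_prime_int.mp hp)]
    exact hn
  obtain ⟨u, v, huv⟩ := hc
  refine ⟨y ^ u * x ^ v, ?_⟩
  have h1 : x = (x ^ n) ^ u * (x ^ p) ^ v := by
    rw [← zpow_mul, ← zpow_natCast x p, ← zpow_mul, ← zpow_add]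
    have h2 : n * u + (p : ℤ) * v = 1 := by linarith [mul_comm n u, mul_comm (p : ℤ) v]
    rw [h2, zpow_one]
  have h3 : (y ^ u * x ^ v) ^ p = (y ^ p) ^ u * (x ^ p) ^ v := by
    rw [mul_pow, ← zpow_natCast (y ^ u) p, ← zpow_natCast (x ^ v) p, ← zpow_mul, ← zpow_mul,
      mul_comm u, mul_comm v, zpow_mul, zpow_mul, zpow_natCast, zpow_natCast]
  rw [h3, ← hy]
  exact h1

theorem nat_sub_not_dvd {p i j : ℕ} (hi : i < p) (hj : j < p) (hij : i ≠ j) :
    ¬ (p : ℤ) ∣ (i : ℤ) - j := by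
  intro h
  have h1 : |(i : ℤ) - j| < p := by
    rw [abs_lt]
    constructor <;> omega
  have h2 := Int.eq_zero_of_abs_lt_dvd h h1
  omega

section loc

variable {p : ℕ} {K : Type} [Field K] [NumberField K] (v : HeightOneSpectrum (𝓞 K))

theorem dvd_of_locPow (z : Kˣ) (h : LocPow p v (z : K)) (hp : p ≠ 0) :
    (p : ℤ) ∣ ordv v (z : K) := by
  obtain ⟨y, hy⟩ := h
  have h1 : v.valuation K ((z : K) * y ^ p) = 1 := by
    have h2 : (z : K) * y ^ p = 1 + ((z : K) * y ^ p - 1) := by ring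
    rw [h2]
    have h3 : v.valuation K ((z : K) * y ^ p - 1) < v.valuation K 1 := by rwa [map_one]
    rw [Valuation.map_add_eq_of_lt_left _ h3, map_one]
  have hne : (z : K) * y ^ p ≠ 0 := by
    intro h0
    rw [h0, map_zero] at h1
    exact zero_ne_one h1
  have hy2 : y ^ p ≠ 0 := right_ne_zero_of_mul hne
  have hy0 : y ≠ 0 := fun h0 ↦ hy2 (by rw [h0, zero_pow hp])
  have h4 : ordv v ((z * (Units.mk0 y hy0) ^ p : Kˣ) : K) = 0 := by
    unfold ordv
    have h5 : ((z * (Units.mk0 y hy0) ^ p : Kˣ) : K) = (z : K) * y ^ p := by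
      push_cast
      rfl
    rw [h5, h1]
    simp
  rw [Pool.Agent.Helper88.RD.ordv_mul, Pool.Agent.Helper88.RD.ordv_pow] at h4
  exact ⟨-ordv v ((Units.mk0 y hy0 : Kˣ) : K), by linarith⟩

/-- The group of the local `p`-th powers. -/
def locG (p : ℕ) {K : Type} [Field K] [NumberField K] (v : HeightOneSpectrum (𝓞 K)) :
    Subgroup Kˣ where
  carrier := {x | LocPow p v (x : K)}
  mul_mem' := by
    intro a b ha hb
    have h := Pool.Agent.Helper88.RD.locPow_mul (v := v) ha hb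
    have h2 : ((a * b : Kˣ) : K) = (a : K) * b := Units.val_mul a b
    show LocPow p v ((a * b : Kˣ) : K)
    rw [h2]
    exact h
  one_mem' := by
    show LocPow p v ((1 : Kˣ) : K)
    have h := Pool.Agent.Helper88.RD.locPow_pow (p := p) v (z := (1 : K)) one_ne_zero
    rw [one_pow] at h
    rw [Units.val_one]
    exact h
  inv_mem' := by
    intro a ha
    have h := Pool.Agent.Helper88.RD.locPow_inv (v := v) ha
    show LocPow p v ((a⁻¹ : Kˣ) : K)
    rw [Units.val_inv_eq_inv_val]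
    exact h

theorem mem_locG {x : Kˣ} : x ∈ locG p v ↔ LocPow p v (x : K) := Iff.rfl

theorem pow_mem_locG (x : Kˣ) : x ^ p ∈ locG p v := by
  rw [mem_locG]
  have h := Pool.Agent.Helper88.RD.locPow_pow (p := p) v (z := (x : K)) (Units.ne_zero x)
  rw [Units.val_pow_eq_pow_val]
  exact h

/-- An element with a power prime to `p` in a subgroup containing the `p`-th powers is in it. -/
theorem mem_of_zpow {p : ℕ} (hp : p.Prime) {G : Type} [CommGroup G] (H : Subgroup G)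
    (hH : ∀ x : G, x ^ p ∈ H) {x : G} {n : ℤ} (hn : ¬ (p : ℤ) ∣ n) (h : x ^ n ∈ H) : x ∈ H := by
  have hc : IsCoprime n (p : ℤ) := by
    rw [isCoprime_comm, Prime.coprime_iff_not_dvd (Nat.prime_iff_prime_int.mp hp)]
    exact hn
  obtain ⟨u, v, huv⟩ := hc
  have h1 : x = (x ^ n) ^ u * (x ^ p) ^ v := by
    rw [← zpow_mul, ← zpow_natCast x p, ← zpow_mul, ← zpow_add]
    have h2 : n * u + (p : ℤ) * v = 1 := by linarith [mul_comm n u, mul_comm (p : ℤ) v]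
    rw [h2, zpow_one]
  rw [h1]
  exact H.mul_mem (H.zpow_mem h u) (H.zpow_mem (hH x) v)

end loc

/-- The elements of `Sel1` for the larger datum are in `Sel1` and local `p`-th powers on `Z'`. -/
theorem sel_sub {p : ℕ} [Fact p.Prime] {k : Type} [NormedField k] {K : Type} [Field K]
    [NumberField K] (L : IwasawaLog p k) (T : Set (K →+* k)) (R : Set (HeightOneSpectrum (𝓞 K)))
    (al al' : HeightOneSpectrum (𝓞 K) → K) (S : Set (HeightOneSpectrum (𝓞 K))) (𝔪 : Ideal (𝓞 K))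
    (ψ : Fin 2 → Ideal (𝓞 K) → ZMod p) (hF : PsiFam L T R al S 𝔪 2 ψ)
    (Z' : Finset (HeightOneSpectrum (𝓞 K))) (hZ : ∀ w ∈ Z', w ∉ S)
    (hrel : ∀ o : HeightOneSpectrum (𝓞 K) → ZMod p,
      (∀ i, ∑ w ∈ Z', o w * ψ i w.asIdeal = 0) → ∀ w ∈ Z', o w = 0)
    (hD' : IsDat p (R ∪ (Z' : Set (HeightOneSpectrum (𝓞 K)))) al')
    (hal : ∀ w ∈ R, al' w = al w) (x : Kˣ)
    (hx : Sel1 L T (R ∪ (Z' : Set (HeightOneSpectrum (𝓞 K)))) al' x) :
    Sel1 L T R al x ∧ ∀ w ∈ Z', LocPow p w (x : K) := by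
  have hp0 : p ≠ 0 := (Fact.out : p.Prime).ne_zero
  have hout : ∀ w, w ∉ Z' → LocD p R al w (x : K) := by
    intro w hw
    refine ⟨fun hwR ↦ (hx.loc w).1 ?_, fun hwR ↦ ?_⟩
    · rintro (h | h)
      · exact hwR h
      · exact hw (Finset.mem_coe.mp h)
    · obtain ⟨i, hi⟩ := (hx.loc w).2 (Or.inl hwR)
      rw [hal w hwR] at hi
      exact ⟨i, hi⟩
  have hd := hF.dual x Z' hZ hout hx.sig
  have hz := hrel (fun w ↦ ((ordv w (x : K) : ℤ) : ZMod p)) hd
  have hdv : ∀ w ∈ Z', (p : ℤ) ∣ ordv w (x : K) := by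
    intro w hw
    exact (ZMod.intCast_zmod_eq_zero_iff_dvd _ _).mp (hz w hw)
  refine ⟨⟨fun w ↦ ?_, hx.sig⟩, fun w hw ↦ ?_⟩
  · by_cases hw : w ∈ Z'
    · refine ⟨fun _ ↦ hdv w hw, fun hwR ↦ ?_⟩
      exact absurd (hF.sub hwR) (hZ w hw)
    · exact hout w hw
  · have hwR' : w ∈ R ∪ (Z' : Set (HeightOneSpectrum (𝓞 K))) := Or.inr (Finset.mem_coe.mpr hw)
    obtain ⟨i, hi⟩ := (hx.loc w).2 hwR'
    have hun : ordv w (algebraMap K K (al' w)) = 1 := hD'.unif w hwR'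
    have hal0 : algebraMap K K (al' w) ≠ 0 := Pool.Agent.Helper88.RD.al_ne_zero hD' hwR'
    have he : (x : K) * (algebraMap K K (al' w)) ^ i =
        ((x * (Units.mk0 _ hal0) ^ i : Kˣ) : K) := by
      push_cast
      rfl
    rw [he] at hi
    have hd2 := dvd_of_locPow w _ hi hp0
    have hun' : ordv w ((Units.mk0 _ hal0 : Kˣ) : K) = 1 := hun
    rw [Pool.Agent.Helper88.RD.ordv_mul, Pool.Agent.Helper88.RD.ordv_pow, hun', mul_one,
      dvd_add_right (hdv w hw)] at hd2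
    obtain ⟨t, ht⟩ := Int.natCast_dvd_natCast.mp hd2
    rw [← he, ht, mul_comm p t, pow_mul] at hi
    exact Pool.Agent.Helper88.RD.locPow_mul_pow hi

/-- The step, `K` does not contain the `p`-th roots of unity. -/
theorem l_st2 (h1 : L_CYC) (h2 : L_PSI) (h3 : L_CH2) (h4 : L_ADD) (h5 : L_SLG) :
    Pool.Agent.Helper11.LE.L_ST2 := by
  classical
  intro p hpf hp2 k _ _ _ _ hne L K K₁ _ _ _ _ _ ε hC hdeg T hT R al a hSt hG
  have hp : p.Prime := hpf.out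
  have hp0 : p ≠ 0 := hp.ne_zero
  -- the element x₀
  obtain ⟨x₀, hx₀, hx₀p⟩ : ∃ x₀ : Kˣ, Sel1 L T R al x₀ ∧ ¬ Pw p x₀ := by
    unfold Good at hG
    push Not at hG
    obtain ⟨x₀, hx₀, hx⟩ := hG
    refine ⟨x₀, hx₀, ?_⟩
    rintro ⟨y, hy⟩
    refine hx 0 y ?_
    rw [pow_zero, one_mul, hy, Units.val_pow_eq_pow_val, map_pow]
  obtain ⟨⟨G, hG1, hG2⟩, -⟩ := h5 p k L K T R al hSt.dat
  have hzp : ∀ i j : ℕ, i < p → j < p → i ≠ j → ¬ Pw p (x₀ ^ i / x₀ ^ j) := by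
    rintro i j hi hj hij ⟨y, hy⟩
    refine hx₀p (pth_of_zpow hp (nat_sub_not_dvd hi hj hij) ⟨y, ?_⟩)
    rw [zpow_sub, zpow_natCast, zpow_natCast, ← div_eq_mul_inv]
    exact hy
  -- the set of the powers of x₀
  have hF₀ : ∃ F : Finset Kˣ, F.card = p ^ 1 ∧ Inc p (Sel1 L T R al) F := by
    refine ⟨(Finset.range p).image (fun i ↦ x₀ ^ i), ?_, ?_, ?_⟩
    · rw [Finset.card_image_of_injOn, Finset.card_range, pow_one]
      intro i hi j hj hij
      by_contra hne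
      refine hzp i j (Finset.mem_range.mp hi) (Finset.mem_range.mp hj) hne ⟨1, ?_⟩
      have hij' : x₀ ^ i = x₀ ^ j := hij
      rw [hij', div_self', one_pow]
    · intro x hx
      obtain ⟨i, -, rfl⟩ := Finset.mem_image.mp hx
      exact (hG1 _).mp (G.pow_mem ((hG1 _).mpr hx₀) i)
    · intro x hx y hy hxy
      obtain ⟨i, hi, rfl⟩ := Finset.mem_image.mp hx
      obtain ⟨j, hj, rfl⟩ := Finset.mem_image.mp hy
      refine hzp i j (Finset.mem_range.mp hi) (Finset.mem_range.mp hj) ?_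
      rintro rfl
      exact hxy rfl
  -- the rank
  obtain ⟨-, -, hc1, -⟩ := h1 p K K₁ ε hC
  have hno : ¬ ∃ ξ : K, IsPrimitiveRoot ξ p := by
    intro h
    have := hc1.mpr h
    omega
  have hurk : urk p K = Units.rank K := by
    unfold urk
    rw [if_neg hno, add_zero]
  obtain ⟨S, 𝔪, ψ, hF⟩ := h2 p k hne L K T R al hSt.dat 1 2 (by rw [hurk]; omega) hF₀
  -- the element b
  have h𝔫 : Ideal.span {(p : 𝓞 K₁) ^ 3 * a} ≠ ⊥ := by
    rw [Ne, Ideal.span_singleton_eq_bot]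
    refine mul_ne_zero (pow_ne_zero _ ?_) hSt.ne
    exact_mod_cast hp0
  obtain ⟨b, Z', hb0, hb1, hbom, hZ', hval, hrel, w₁, hw₁, hw₁x⟩ := h3 p hp2 K K₁ ε hC hdeg x₀
    hx₀p 𝔪 ψ hF.fam hF.ind _ h𝔫 S hF.fin
  have hZS : ∀ w ∈ Z', w ∉ S := fun w hw ↦ (hZ' w hw).1
  have hZR : ∀ w ∈ Z', w ∉ R ∧ w.valuation K (p : K) = 1 := by
    intro w hw
    refine ⟨fun h ↦ hZS w hw (hF.sub h), ?_⟩
    have hle : w.valuation K (p : K) ≤ 1 := by
      have h := w.valuation_le_one (K := K) (p : 𝓞 K)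
      simpa using h
    exact le_antisymm hle (not_lt.mp fun h ↦ hZS w hw (hF.abp w h))
  obtain ⟨al', hSt', hal'⟩ := h4 p K K₁ ε hC R al a hSt b Z' hb0 hb1 hbom hZR hval
  refine ⟨R ∪ (Z' : Set (HeightOneSpectrum (𝓞 K))), al', a * b, hSt', Set.subset_union_left, ?_⟩
  intro n hn F' hF'
  have hkey : ∀ x ∈ F', Sel1 L T R al x ∧ ∀ w ∈ Z', LocPow p w (x : K) := fun x hx ↦
    sel_sub L T R al al' S 𝔪 ψ hF Z' hZS hrel hSt'.dat hal' x (hF'.1 x hx)
  -- counting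
  have hinj : ∀ x ∈ F', ∀ y ∈ F', ∀ i < p, ∀ j < p, Pw p (x * x₀ ^ i / (y * x₀ ^ j)) →
      x = y ∧ i = j := by
    rintro x hx y hy i hi j hj ⟨z, hz⟩
    have hx1 : x ∈ locG p w₁ := (hkey x hx).2 w₁ hw₁
    have hy1 : y ∈ locG p w₁ := (hkey y hy).2 w₁ hw₁
    have hz1 : z ^ p ∈ locG p w₁ := pow_mem_locG w₁ z
    have hij : i = j := by
      by_contra hne
      apply hw₁x
      rw [← mem_locG]
      refine mem_of_zpow hp (locG p w₁) (pow_mem_locG w₁) (nat_sub_not_dvd hi hj hne) ?_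
      have h6 : x₀ ^ ((i : ℤ) - j) = x⁻¹ * y * z ^ p := by
        rw [← hz, zpow_sub, zpow_natCast, zpow_natCast, div_eq_mul_inv, mul_inv]
        have h7 : x⁻¹ * y * (x * x₀ ^ i * (y⁻¹ * (x₀ ^ j)⁻¹)) =
            (x⁻¹ * x) * (y * y⁻¹) * (x₀ ^ i * (x₀ ^ j)⁻¹) := by ac_rfl
        rw [h7, inv_mul_cancel, mul_inv_cancel, one_mul, one_mul]
      rw [h6]
      exact (locG p w₁).mul_mem ((locG p w₁).mul_mem ((locG p w₁).inv_mem hx1) hy1) hz1
    refine ⟨?_, hij⟩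
    by_contra hne
    refine hF'.2 x hx y hy hne ⟨z, ?_⟩
    rw [← hz, hij, mul_div_mul_right_eq_div]
  have hcard : ((F' ×ˢ Finset.range p).image fun t : Kˣ × ℕ ↦ t.1 * x₀ ^ t.2).card =
      F'.card * p := by
    rw [Finset.card_image_of_injOn, Finset.card_product, Finset.card_range]
    rintro ⟨x, i⟩ hs ⟨y, j⟩ ht hst
    have hs' := Finset.mem_product.mp (Finset.mem_coe.mp hs)
    have ht' := Finset.mem_product.mp (Finset.mem_coe.mp ht)
    have hst' : x * x₀ ^ i = y * x₀ ^ j := hst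
    obtain ⟨e1, e2⟩ := hinj x hs'.1 y ht'.1 i (Finset.mem_range.mp hs'.2) j
      (Finset.mem_range.mp ht'.2) ⟨1, by rw [hst', div_self', one_pow]⟩
    rw [e1, e2]
  rw [mul_comm, ← hcard]
  refine hn _ ⟨?_, ?_⟩
  · intro x hx
    obtain ⟨⟨y, i⟩, ht, rfl⟩ := Finset.mem_image.mp hx
    have ht' := Finset.mem_product.mp ht
    exact (hG1 _).mp (G.mul_mem ((hG1 _).mpr (hkey y ht'.1).1)
      (G.pow_mem ((hG1 _).mpr hx₀) i))
  · intro x hx y hy hxy hpw
    obtain ⟨⟨x', i⟩, hs, rfl⟩ := Finset.mem_image.mp hx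
    obtain ⟨⟨y', j⟩, ht, rfl⟩ := Finset.mem_image.mp hy
    have hs' := Finset.mem_product.mp hs
    have ht' := Finset.mem_product.mp ht
    obtain ⟨e1, e2⟩ := hinj x' hs'.1 y' ht'.1 i (Finset.mem_range.mp hs'.2) j
      (Finset.mem_range.mp ht'.2) hpw
    apply hxy
    simp only [] at e1 e2 ⊢
    rw [e1, e2]

end Pool.Agent.Helper2.LE
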